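import Mathlib

/-!
# Intrinsic metrics, Euclidean Vietoris-Rips shadows: definitions
-/

namespace Pool.Agent.Q135.Sh

open Set Filter Topology
open scoped ENNReal

/-- The intrinsic distance in `M` between `p` and `q`: the infimum of the lengths of the paths in
`M` (parametrised by `[0,1]`) from `p` to `q`; the length of a path is its total variation. -/
noncomputable def intrinsicEDist {E : Type*} [PseudoEMetricSpace E] (M : Set E) (p q : E) : ℝ≥0∞ :=
  ⨅ (c : ℝ → E) (_ : ContinuousOn c (Icc 0 1)) (_ : MapsTo c (Icc 0 1) M) (_ : c 0 = p)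
    (_ : c 1 = q), eVariationOn c (Icc 0 1)

/-- The hypotheses on `M ⊆ ℝ^N`: `M` is compact and connected, it is a geodesic space with its
intrinsic metric `d_M`, (M1) maps into `M` which are close with respect to `d_M` are homotopic, (M2)
the Euclidean metric and `d_M` are locally Lipschitz equivalent, (M3) a neighbourhood `U` of `M`
retracts to `M`, by a retraction which moves the points of the closed `r`-neighbourhood of `M` by
less than `ε r`, where `ε r → 0` as `r → 0`. -/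
structure Admissible (N : ℕ) (M : Set (EuclideanSpace ℝ (Fin N))) : Prop where
  compact : IsCompact M
  connected : IsConnected M
  finite_dist : ∀ p ∈ M, ∀ q ∈ M, intrinsicEDist M p q ≠ ⊤
  geodesic : ∀ p ∈ M, ∀ q ∈ M, ∃ c : ℝ → EuclideanSpace ℝ (Fin N),
    c 0 = p ∧ c (intrinsicEDist M p q).toReal = q ∧
    (∀ s ∈ Icc 0 (intrinsicEDist M p q).toReal, c s ∈ M) ∧
    ∀ s ∈ Icc 0 (intrinsicEDist M p q).toReal, ∀ t ∈ Icc 0 (intrinsicEDist M p q).toReal,
      intrinsicEDist M (c s) (c t) = ENNReal.ofReal |s - t|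
  M1 : ∃ ρ : ℝ, 0 < ρ ∧ ∀ (X : Type) [TopologicalSpace X] (f g : C(X, M)),
    (∀ x, intrinsicEDist M (f x) (g x) < ENNReal.ofReal ρ) → f.Homotopic g
  M2 : ∃ δ : ℝ, 0 < δ ∧ ∃ ξ : ℝ, 1 < ξ ∧ ∀ p ∈ M, ∀ q ∈ M, dist p q < δ →
    ENNReal.ofReal (dist p q) ≤ intrinsicEDist M p q ∧
    intrinsicEDist M p q ≤ ENNReal.ofReal (ξ * dist p q)
  M3 : ∃ (U : Set (EuclideanSpace ℝ (Fin N)))
    (π : EuclideanSpace ℝ (Fin N) → EuclideanSpace ℝ (Fin N)),
    U ∈ 𝓝ˢ M ∧ ContinuousOn π U ∧ MapsTo π U M ∧ (∀ x ∈ M, π x = x) ∧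
    ∃ ε : ℝ → ℝ, (∀ r > 0, {x | Metric.infDist x M ≤ r} ⊆ U →
      0 < ε r ∧ ∀ x, Metric.infDist x M ≤ r → dist (π x) x < ε r) ∧
      Tendsto ε (𝓝[>] 0) (𝓝 0)

/-- The shadow of the Euclidean Vietoris-Rips complex of `S` at scale `β`: the union of the convex
hulls of the nonempty finite subsets of `S` of diameter less than `β`. -/
def shadow {N : ℕ} (β : ℝ) (S : Set (EuclideanSpace ℝ (Fin N))) :
    Set (EuclideanSpace ℝ (Fin N)) :=
  {x | ∃ σ : Set (EuclideanSpace ℝ (Fin N)), σ.Nonempty ∧ σ.Finite ∧ σ ⊆ S ∧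
    Metric.diam σ < β ∧ x ∈ convexHull ℝ σ}

end Pool.Agent.Q135.Sh
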