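import Mathlib
import Pool.Agent.Q135.Sh.Defs

/-!
# Bi-Lipschitz arcs
-/

namespace Pool.Agent.Q135.Sh

open Set Filter Topology
open scoped ENNReal

section Metric

variable {E : Type*} [PseudoEMetricSpace E]

lemma intrinsicEDist_le {M : Set E} {p q : E} {c : ℝ → E} (h1 : ContinuousOn c (Icc 0 1))
    (h2 : MapsTo c (Icc 0 1) M) (h3 : c 0 = p) (h4 : c 1 = q) :
    intrinsicEDist M p q ≤ eVariationOn c (Icc 0 1) := by
  unfold intrinsicEDist
  exact iInf_le_of_le c (iInf_le_of_le h1 (iInf_le_of_le h2 (iInf_le_of_le h3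
    (iInf_le_of_le h4 le_rfl))))

lemma le_intrinsicEDist {M : Set E} {p q : E} {a : ℝ≥0∞}
    (h : ∀ c : ℝ → E, ContinuousOn c (Icc 0 1) → MapsTo c (Icc 0 1) M → c 0 = p → c 1 = q →
      a ≤ eVariationOn c (Icc 0 1)) : a ≤ intrinsicEDist M p q := by
  unfold intrinsicEDist
  exact le_iInf fun c => le_iInf fun h1 => le_iInf fun h2 => le_iInf fun h3 => le_iInf fun h4 =>
    h c h1 h2 h3 h4

lemma intrinsicEDist_comm_le (M : Set E) (p q : E) :
    intrinsicEDist M p q ≤ intrinsicEDist M q p := by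
  refine le_intrinsicEDist fun c h1 h2 h3 h4 => ?_
  have hm : MapsTo (fun x : ℝ => 1 - x) (Icc 0 1) (Icc 0 1) := by
    intro x hx
    exact ⟨by linarith [hx.2], by linarith [hx.1]⟩
  refine (intrinsicEDist_le (c := c ∘ fun x => 1 - x) ?_ ?_ ?_ ?_).trans ?_
  · exact h1.comp (by fun_prop) hm
  · exact h2.comp hm
  · simp [h4]
  · simp [h3]
  · exact eVariationOn.comp_le_of_antitoneOn c _ (fun x _ y _ hxy => by
      change 1 - y ≤ 1 - x
      linarith) hm

lemma intrinsicEDist_comm (M : Set E) (p q : E) :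
    intrinsicEDist M p q = intrinsicEDist M q p :=
  le_antisymm (intrinsicEDist_comm_le M p q) (intrinsicEDist_comm_le M q p)

end Metric

/-- `Γ` restricted to `[0,1]` is Lipschitz with constant `C` and expands distances. -/
structure BiLip {E : Type*} [PseudoMetricSpace E] (Γ : ℝ → E) (C : ℝ) : Prop where
  lower : ∀ s ∈ Icc (0 : ℝ) 1, ∀ t ∈ Icc (0 : ℝ) 1, |s - t| ≤ dist (Γ s) (Γ t)
  upper : ∀ s ∈ Icc (0 : ℝ) 1, ∀ t ∈ Icc (0 : ℝ) 1, dist (Γ s) (Γ t) ≤ C * |s - t|

namespace BiLip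

variable {E : Type*} [MetricSpace E] {Γ : ℝ → E} {C : ℝ} (h : BiLip Γ C)

include h

lemma one_le : 1 ≤ C := by
  have h1 := h.lower 0 (by simp) 1 (by simp)
  have h2 := h.upper 0 (by simp) 1 (by simp)
  have h3 : |(0 : ℝ) - 1| = 1 := by norm_num
  rw [h3] at h1 h2
  linarith

lemma continuousOn : ContinuousOn Γ (Icc 0 1) := by
  have : LipschitzOnWith (Real.toNNReal C) Γ (Icc 0 1) := by
    refine LipschitzOnWith.of_dist_le_mul fun s hs t ht => ?_
    rw [Real.coe_toNNReal C (zero_le_one.trans h.one_le), Real.dist_eq]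
    exact h.upper s hs t ht
  exact this.continuousOn

lemma injOn : InjOn Γ (Icc 0 1) := by
  intro s hs t ht hst
  have h1 := h.lower s hs t ht
  rw [hst, dist_self] at h1
  have h2 := abs_nonneg (s - t)
  have h3 : |s - t| = 0 := le_antisymm h1 h2
  have h4 := abs_eq_zero.1 h3
  linarith

lemma compact_image : IsCompact (Γ '' Icc 0 1) := isCompact_Icc.image_of_continuousOn h.continuousOn

lemma connected_image : IsConnected (Γ '' Icc 0 1) :=
  (isConnected_Icc zero_le_one).image _ h.continuousOn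

/-- inverse of `Γ` -/
lemma exists_inv : ∃ g : E → ℝ, (∀ t ∈ Icc (0 : ℝ) 1, g (Γ t) = t) ∧
    ContinuousOn g (Γ '' Icc 0 1) ∧ MapsTo g (Γ '' Icc 0 1) (Icc 0 1) := by
  refine ⟨Function.invFunOn Γ (Icc 0 1), ?_, ?_, ?_⟩
  · intro t ht
    exact h.injOn.leftInvOn_invFunOn ht
  · have : LipschitzOnWith 1 (Function.invFunOn Γ (Icc 0 1)) (Γ '' Icc 0 1) := by
      refine LipschitzOnWith.of_dist_le_mul ?_
      rintro _ ⟨s, hs, rfl⟩ _ ⟨t, ht, rfl⟩
      rw [h.injOn.leftInvOn_invFunOn hs, h.injOn.leftInvOn_invFunOn ht, Real.dist_eq]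
      simpa using h.lower s hs t ht
    exact this.continuousOn
  · rintro _ ⟨s, hs, rfl⟩
    rw [h.injOn.leftInvOn_invFunOn hs]
    exact hs

lemma variation_le {s t : ℝ} (hs : 0 ≤ s) (hst : s ≤ t) (ht : t ≤ 1) :
    eVariationOn Γ (Icc s t) ≤ ENNReal.ofReal (C * (t - s)) := by
  have hsub : Icc s t ⊆ Icc 0 1 := Icc_subset_Icc hs ht
  have hL : LipschitzOnWith (Real.toNNReal C) Γ (Icc s t) := by
    refine LipschitzOnWith.of_dist_le_mul fun s hs t ht => ?_
    rw [Real.coe_toNNReal C (zero_le_one.trans h.one_le), Real.dist_eq]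
    exact h.upper s (hsub hs) t (hsub ht)
  have h1 : eVariationOn (Γ ∘ (id : ℝ → ℝ)) (Icc s t) ≤
      (Real.toNNReal C : ℝ≥0∞) * eVariationOn (id : ℝ → ℝ) (Icc s t) :=
    hL.comp_eVariationOn_le (fun x hx => hx)
  have h2 : eVariationOn (id : ℝ → ℝ) (Icc s t ∩ Icc s t) ≤ ENNReal.ofReal (t - s) :=
    (MonotoneOn.eVariationOn_eq (monotone_id.monotoneOn _) (left_mem_Icc.2 hst)
      (right_mem_Icc.2 hst)).le
  rw [inter_self] at h2
  calc eVariationOn Γ (Icc s t) ≤ (Real.toNNReal C : ℝ≥0∞) * eVariationOn (id : ℝ → ℝ) (Icc s t) := h1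
    _ ≤ (Real.toNNReal C : ℝ≥0∞) * ENNReal.ofReal (t - s) := by gcongr
    _ = ENNReal.ofReal (C * (t - s)) := by
      rw [ENNReal.ofReal_mul (zero_le_one.trans h.one_le)]
      rfl

/-- **Length of the arc.** -/
lemma intrinsic_eq {s t : ℝ} (hs : 0 ≤ s) (hst : s ≤ t) (ht : t ≤ 1) :
    intrinsicEDist (Γ '' Icc 0 1) (Γ s) (Γ t) = eVariationOn Γ (Icc s t) := by
  have hsub : Icc s t ⊆ Icc 0 1 := Icc_subset_Icc hs ht
  apply le_antisymm
  · have hm : MapsTo (fun x : ℝ => s + x * (t - s)) (Icc 0 1) (Icc s t) := by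
      intro x hx
      constructor
      · nlinarith [hx.1, hx.2]
      · nlinarith [hx.1, hx.2]
    refine (intrinsicEDist_le (c := Γ ∘ fun x => s + x * (t - s)) ?_ ?_ ?_ ?_).trans ?_
    · exact (h.continuousOn.mono hsub).comp (by fun_prop) hm
    · intro x hx
      exact ⟨_, hsub (hm hx), rfl⟩
    · simp
    · simp
    · exact eVariationOn.comp_le_of_monotoneOn Γ _ (fun x _ y _ hxy => by
        change s + x * (t - s) ≤ s + y * (t - s)
        nlinarith) hm
  · refine le_intrinsicEDist fun c h1 h2 h3 h4 => ?_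
    obtain ⟨g, hg1, hg2, hg3⟩ := h.exists_inv
    -- the parameter of `c`
    have hk : ContinuousOn (g ∘ c) (Icc 0 1) := hg2.comp h1 h2
    have hk0 : (g ∘ c) 0 = s := by
      change g (c 0) = s
      rw [h3, hg1 s (hsub (left_mem_Icc.2 hst))]
    have hk1 : (g ∘ c) 1 = t := by
      change g (c 1) = t
      rw [h4, hg1 t (hsub (right_mem_Icc.2 hst))]
    have hΓg : ∀ x ∈ Icc (0 : ℝ) 1, Γ (g (c x)) = c x := by
      intro x hx
      obtain ⟨u, hu, hux⟩ := h2 hx
      rw [← hux, hg1 u hu]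
    -- the first time at which the parameter is at least `u`
    let A : ℝ → Set ℝ := fun u => {x ∈ Icc (0 : ℝ) 1 | u ≤ g (c x)}
    have hAcl : ∀ u, IsClosed (A u) := by
      intro u
      exact hk.preimage_isClosed_of_isClosed isClosed_Icc isClosed_Ici
    have hAne : ∀ u ∈ Icc s t, (A u).Nonempty := by
      intro u hu
      refine ⟨1, by simp, ?_⟩
      have : g (c 1) = t := hk1
      rw [this]
      exact hu.2
    have hAbdd : ∀ u, BddBelow (A u) := fun u => ⟨0, fun x hx => hx.1.1⟩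
    let ψ : ℝ → ℝ := fun u => sInf (A u)
    have hψmem : ∀ u ∈ Icc s t, ψ u ∈ A u := fun u hu => (hAcl u).csInf_mem (hAne u hu) (hAbdd u)
    have hψval : ∀ u ∈ Icc s t, g (c (ψ u)) = u := by
      intro u hu
      obtain ⟨hm, hle⟩ := hψmem u hu
      by_contra hne
      have hlt : u < g (c (ψ u)) := lt_of_le_of_ne hle (Ne.symm hne)
      have hiv := intermediate_value_Icc (f := g ∘ c) hm.1 (hk.mono (Icc_subset_Icc le_rfl hm.2))
      have hmem : u ∈ Icc ((g ∘ c) 0) ((g ∘ c) (ψ u)) := by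
        rw [hk0]
        exact ⟨hu.1, hlt.le⟩
      obtain ⟨x, hx, hxu⟩ := hiv hmem
      have hxA : x ∈ A u := ⟨⟨hx.1, hx.2.trans hm.2⟩, hxu.ge⟩
      have h5 : ψ u ≤ x := csInf_le (hAbdd u) hxA
      have h6 : x = ψ u := le_antisymm hx.2 h5
      rw [h6] at hxu
      exact hlt.ne' hxu
    have hψmono : MonotoneOn ψ (Icc s t) := by
      intro u hu v hv huv
      refine csInf_le (hAbdd u) ⟨(hψmem v hv).1, huv.trans (hψmem v hv).2⟩
    have hψmaps : MapsTo ψ (Icc s t) (Icc 0 1) := fun u hu => (hψmem u hu).1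
    have heq : EqOn Γ (c ∘ ψ) (Icc s t) := by
      intro u hu
      change Γ u = c (ψ u)
      rw [← hΓg _ (hψmaps hu), hψval u hu]
    rw [eVariationOn.eq_of_eqOn heq]
    exact eVariationOn.comp_le_of_monotoneOn c ψ hψmono hψmaps

/-- arclength -/
lemma exists_length : ∃ V : ℝ → ℝ, V 0 = 0 ∧
    (∀ s ∈ Icc (0 : ℝ) 1, ∀ t ∈ Icc (0 : ℝ) 1, s ≤ t →
      intrinsicEDist (Γ '' Icc 0 1) (Γ s) (Γ t) = ENNReal.ofReal (V t - V s) ∧
      t - s ≤ V t - V s ∧ V t - V s ≤ C * (t - s)) := by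
  refine ⟨fun t => (eVariationOn Γ (Icc 0 t)).toReal, ?_, ?_⟩
  · simp
  · intro s hs t ht hst
    have hfin : ∀ a b : ℝ, 0 ≤ a → a ≤ b → b ≤ 1 → eVariationOn Γ (Icc a b) ≠ ⊤ :=
      fun a b ha hab hb => ((h.variation_le ha hab hb).trans_lt ENNReal.ofReal_lt_top).ne
    have hadd : eVariationOn Γ (Icc 0 s) + eVariationOn Γ (Icc s t) = eVariationOn Γ (Icc 0 t) := by
      have := eVariationOn.Icc_add_Icc Γ (s := univ) hs.1 hst (mem_univ _)
      simpa using this
    have h1 : (eVariationOn Γ (Icc 0 t)).toReal - (eVariationOn Γ (Icc 0 s)).toReal =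
        (eVariationOn Γ (Icc s t)).toReal := by
      rw [← hadd, ENNReal.toReal_add (hfin 0 s le_rfl hs.1 hs.2) (hfin s t hs.1 hst ht.2)]
      ring
    rw [h.intrinsic_eq hs.1 hst ht.2]
    change _ = ENNReal.ofReal ((eVariationOn Γ (Icc 0 t)).toReal -
      (eVariationOn Γ (Icc 0 s)).toReal) ∧ t - s ≤ (eVariationOn Γ (Icc 0 t)).toReal -
      (eVariationOn Γ (Icc 0 s)).toReal ∧ (eVariationOn Γ (Icc 0 t)).toReal -
      (eVariationOn Γ (Icc 0 s)).toReal ≤ C * (t - s)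
    rw [h1]
    refine ⟨?_, ?_, ?_⟩
    · rw [ENNReal.ofReal_toReal (hfin s t hs.1 hst ht.2)]
    · have h2 : edist (Γ s) (Γ t) ≤ eVariationOn Γ (Icc s t) :=
        eVariationOn.edist_le Γ (left_mem_Icc.2 hst) (right_mem_Icc.2 hst)
      have h3 := ENNReal.toReal_mono (hfin s t hs.1 hst ht.2) h2
      rw [edist_dist, ENNReal.toReal_ofReal dist_nonneg] at h3
      have h4 := h.lower s hs t ht
      rw [abs_sub_comm, abs_of_nonneg (by linarith)] at h4
      linarith
    · have h2 := ENNReal.toReal_mono ENNReal.ofReal_ne_top (h.variation_le hs.1 hst ht.2)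
      rw [ENNReal.toReal_ofReal] at h2
      · exact h2
      · have := h.one_le
        exact mul_nonneg (by linarith) (by linarith)

end BiLip

end Pool.Agent.Q135.Sh
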