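import Mathlib
import Pool.Agent.Q135.Sh.Arc

/-!
# Bi-Lipschitz arcs are admissible
-/

namespace Pool.Agent.Q135.Sh

open Set Filter Topology
open scoped ENNReal

namespace BiLip

section

variable {E : Type*} [MetricSpace E] {Γ : ℝ → E} {C : ℝ} (h : BiLip Γ C)

include h

lemma geodesic_aux {s t : ℝ} (hs : s ∈ Icc (0 : ℝ) 1) (ht : t ∈ Icc (0 : ℝ) 1) (hst : s ≤ t) :
    ∃ d : ℝ, 0 ≤ d ∧ intrinsicEDist (Γ '' Icc 0 1) (Γ s) (Γ t) = ENNReal.ofReal d ∧
    ∃ c : ℝ → E, c 0 = Γ s ∧ c d = Γ t ∧ (∀ x ∈ Icc 0 d, c x ∈ Γ '' Icc 0 1) ∧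
      ∀ x ∈ Icc 0 d, ∀ y ∈ Icc 0 d,
        intrinsicEDist (Γ '' Icc 0 1) (c x) (c y) = ENNReal.ofReal |x - y| := by
  obtain ⟨V, hV0, hV⟩ := h.exists_length
  have hd : 0 ≤ V t - V s := le_trans (by linarith) (hV s hs t ht hst).2.1
  refine ⟨V t - V s, hd, (hV s hs t ht hst).1, ?_⟩
  have hcont : ContinuousOn V (Icc 0 1) := by
    have : LipschitzOnWith (Real.toNNReal C) V (Icc 0 1) := by
      refine LipschitzOnWith.of_dist_le_mul fun a ha b hb => ?_
      rw [Real.coe_toNNReal C (zero_le_one.trans h.one_le), Real.dist_eq, Real.dist_eq]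
      rcases le_total a b with hab | hab
      · have h1 := hV a ha b hb hab
        rw [abs_sub_comm, abs_of_nonneg (by linarith), abs_sub_comm, abs_of_nonneg (by linarith)]
        exact h1.2.2
      · have h1 := hV b hb a ha hab
        rw [abs_of_nonneg (by linarith), abs_of_nonneg (by linarith)]
        exact h1.2.2
    exact this.continuousOn
  have hlt : ∀ a ∈ Icc (0 : ℝ) 1, ∀ b ∈ Icc (0 : ℝ) 1, V a ≤ V b → a ≤ b := by
    intro a ha b hb hab
    by_contra hcon
    push Not at hcon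
    have := (hV b hb a ha hcon.le).2.1
    linarith
  have hsub : Icc s t ⊆ Icc 0 1 := Icc_subset_Icc hs.1 ht.2
  have hiv := intermediate_value_Icc hst (hcont.mono hsub)
  have hex : ∀ y : ℝ, ∃ x, y ∈ Icc (V s) (V t) → x ∈ Icc s t ∧ V x = y := by
    intro y
    by_cases hy : y ∈ Icc (V s) (V t)
    · obtain ⟨x, hx, hxy⟩ := hiv hy
      exact ⟨x, fun _ => ⟨hx, hxy⟩⟩
    · exact ⟨0, fun hy' => absurd hy' hy⟩
  choose W hW using hex
  have hmem : ∀ x ∈ Icc 0 (V t - V s), V s + x ∈ Icc (V s) (V t) := by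
    intro x hx
    exact ⟨by linarith [hx.1], by linarith [hx.2]⟩
  have hW' : ∀ x ∈ Icc 0 (V t - V s), W (V s + x) ∈ Icc s t ∧ V (W (V s + x)) = V s + x :=
    fun x hx => hW _ (hmem x hx)
  have key : ∀ x ∈ Icc 0 (V t - V s), ∀ y ∈ Icc 0 (V t - V s), x ≤ y →
      intrinsicEDist (Γ '' Icc 0 1) (Γ (W (V s + x))) (Γ (W (V s + y))) =
        ENNReal.ofReal (y - x) := by
    intro x hx y hy hxy
    obtain ⟨h1, h2⟩ := hW' x hx
    obtain ⟨h3, h4⟩ := hW' y hy
    have h5 : W (V s + x) ≤ W (V s + y) := hlt _ (hsub h1) _ (hsub h3) (by rw [h2, h4]; linarith)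
    rw [(hV _ (hsub h1) _ (hsub h3) h5).1, h2, h4]
    congr 1
    ring
  refine ⟨fun x => Γ (W (V s + x)), ?_, ?_, ?_, ?_⟩
  · obtain ⟨h1, h2⟩ := hW' 0 ⟨le_rfl, hd⟩
    have h3 : W (V s + 0) = s := by
      apply le_antisymm
      · exact hlt _ (hsub h1) _ hs (by rw [h2]; linarith)
      · exact h1.1
    change Γ (W (V s + 0)) = Γ s
    rw [h3]
  · obtain ⟨h1, h2⟩ := hW' (V t - V s) ⟨hd, le_rfl⟩
    have h3 : W (V s + (V t - V s)) = t := by
      apply le_antisymm h1.2
      exact hlt _ ht _ (hsub h1) (by rw [h2]; linarith)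
    change Γ (W (V s + (V t - V s))) = Γ t
    rw [h3]
  · intro x hx
    exact ⟨_, hsub (hW' x hx).1, rfl⟩
  · intro x hx y hy
    rcases le_total x y with hxy | hxy
    · rw [abs_sub_comm, abs_of_nonneg (by linarith)]
      exact key x hx y hy hxy
    · rw [abs_of_nonneg (by linarith), intrinsicEDist_comm]
      exact key y hy x hx hxy

lemma geodesic_all {s t : ℝ} (hs : s ∈ Icc (0 : ℝ) 1) (ht : t ∈ Icc (0 : ℝ) 1) :
    ∃ d : ℝ, 0 ≤ d ∧ intrinsicEDist (Γ '' Icc 0 1) (Γ s) (Γ t) = ENNReal.ofReal d ∧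
    ∃ c : ℝ → E, c 0 = Γ s ∧ c d = Γ t ∧ (∀ x ∈ Icc 0 d, c x ∈ Γ '' Icc 0 1) ∧
      ∀ x ∈ Icc 0 d, ∀ y ∈ Icc 0 d,
        intrinsicEDist (Γ '' Icc 0 1) (c x) (c y) = ENNReal.ofReal |x - y| := by
  rcases le_total s t with hst | hst
  · exact h.geodesic_aux hs ht hst
  · obtain ⟨d, hd, he, c, h0, h1, h2, h3⟩ := h.geodesic_aux ht hs hst
    have hmem : ∀ x ∈ Icc 0 d, d - x ∈ Icc 0 d := by
      intro x hx
      exact ⟨by linarith [hx.2], by linarith [hx.1]⟩
    refine ⟨d, hd, by rw [intrinsicEDist_comm, he], fun x => c (d - x), ?_, ?_, ?_, ?_⟩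
    · simpa using h1
    · simpa using h0
    · intro x hx
      exact h2 _ (hmem x hx)
    · intro x hx y hy
      change intrinsicEDist (Γ '' Icc 0 1) (c (d - x)) (c (d - y)) = _
      rw [h3 _ (hmem x hx) _ (hmem y hy)]
      congr 1
      rw [abs_sub_comm]
      congr 1
      ring

/-- Any two maps into the arc are homotopic. -/
lemma homotopic {X : Type*} [TopologicalSpace X] (f g : C(X, Γ '' Icc (0 : ℝ) 1)) :
    f.Homotopic g := by
  obtain ⟨k, hk1, hk2, hk3⟩ := h.exists_inv
  have hf : Continuous fun x => k (f x) := by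
    have := continuousOn_iff_continuous_domRestrict.1 hk2
    exact this.comp f.continuous
  have hg : Continuous fun x => k (g x) := by
    have := continuousOn_iff_continuous_domRestrict.1 hk2
    exact this.comp g.continuous
  have hmem : ∀ p : unitInterval × X,
      (1 - (p.1 : ℝ)) * k (f p.2) + p.1 * k (g p.2) ∈ Icc (0 : ℝ) 1 := by
    intro p
    have h1 := hk3 (f p.2).2
    have h2 := hk3 (g p.2).2
    have h3 := p.1.2
    constructor
    · have := h1.1
      have := h2.1
      have := h3.1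
      have : 0 ≤ 1 - (p.1 : ℝ) := by linarith [h3.2]
      positivity
    · nlinarith [h1.2, h2.2, h3.1, h3.2]
  refine ⟨⟨⟨fun p => ⟨Γ ((1 - (p.1 : ℝ)) * k (f p.2) + p.1 * k (g p.2)), _, hmem p, rfl⟩, ?_⟩,
    ?_, ?_⟩⟩
  · refine Continuous.subtype_mk ?_ _
    refine h.continuousOn.comp_continuous ?_ hmem
    have h1 : Continuous fun p : unitInterval × X => k (f p.2) := hf.comp continuous_snd
    have h2 : Continuous fun p : unitInterval × X => k (g p.2) := hg.comp continuous_snd
    have h3 : Continuous fun p : unitInterval × X => (p.1 : ℝ) :=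
      continuous_subtype_val.comp continuous_fst
    exact ((continuous_const.sub h3).mul h1).add (h3.mul h2)
  · intro x
    apply Subtype.ext
    obtain ⟨u, hu, hue⟩ := (f x).2
    have : k (f x) = u := by rw [← hue, hk1 u hu]
    simp [this, hue]
  · intro x
    apply Subtype.ext
    obtain ⟨u, hu, hue⟩ := (g x).2
    have : k (g x) = u := by rw [← hue, hk1 u hu]
    simp [this, hue]

lemma contractible : ContractibleSpace (Γ '' Icc (0 : ℝ) 1) := by
  rw [contractible_iff_id_nullhomotopic]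
  exact ⟨⟨Γ 0, 0, by simp, rfl⟩, h.homotopic _ _⟩

/-- There is a retraction of the whole space. -/
lemma exists_retraction : ∃ π : C(E, E), MapsTo π univ (Γ '' Icc 0 1) ∧
    ∀ x ∈ Γ '' Icc (0 : ℝ) 1, π x = x := by
  obtain ⟨k, hk1, hk2, hk3⟩ := h.exists_inv
  let f : C(Γ '' Icc (0 : ℝ) 1, Icc (0 : ℝ) 1) := ⟨fun x => ⟨k x, hk3 x.2⟩,
    (continuousOn_iff_continuous_domRestrict.1 hk2).subtype_mk _⟩
  obtain ⟨F, hF⟩ := f.exists_restrict_eq h.compact_image.isClosed
  refine ⟨⟨fun x => Γ (F x), h.continuousOn.comp_continuous (by fun_prop) (fun x => (F x).2)⟩,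
    ?_, ?_⟩
  · intro x _
    exact ⟨_, (F x).2, rfl⟩
  · intro x hx
    have h1 := congrArg (fun φ : C(Γ '' Icc (0 : ℝ) 1, Icc (0 : ℝ) 1) => ((φ ⟨x, hx⟩ : Icc (0 : ℝ) 1) : ℝ)) hF
    have h2 : ((F x : Icc (0 : ℝ) 1) : ℝ) = k x := h1
    change Γ (F x : Icc (0 : ℝ) 1) = x
    rw [h2]
    obtain ⟨u, hu, rfl⟩ := hx
    rw [hk1 u hu]

end

/-- **Bi-Lipschitz arcs are admissible.** -/
theorem admissible {N : ℕ} {Γ : ℝ → EuclideanSpace ℝ (Fin N)} {C : ℝ} (h : BiLip Γ C) :
    Admissible N (Γ '' Icc 0 1) where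
  compact := h.compact_image
  connected := h.connected_image
  finite_dist := by
    rintro _ ⟨s, hs, rfl⟩ _ ⟨t, ht, rfl⟩
    obtain ⟨d, hd, he, -⟩ := h.geodesic_all hs ht
    rw [he]
    exact ENNReal.ofReal_ne_top
  geodesic := by
    rintro _ ⟨s, hs, rfl⟩ _ ⟨t, ht, rfl⟩
    obtain ⟨d, hd, he, c, h0, h1, h2, h3⟩ := h.geodesic_all hs ht
    rw [he, ENNReal.toReal_ofReal hd]
    exact ⟨c, h0, h1, h2, h3⟩
  M1 := ⟨1, one_pos, fun X _ f g _ => h.homotopic f g⟩
  M2 := by
    refine ⟨1, one_pos, C + 1, by linarith [h.one_le], ?_⟩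
    have key : ∀ s ∈ Icc (0 : ℝ) 1, ∀ t ∈ Icc (0 : ℝ) 1, s ≤ t →
        ENNReal.ofReal (dist (Γ s) (Γ t)) ≤ intrinsicEDist (Γ '' Icc 0 1) (Γ s) (Γ t) ∧
        intrinsicEDist (Γ '' Icc 0 1) (Γ s) (Γ t) ≤
          ENNReal.ofReal ((C + 1) * dist (Γ s) (Γ t)) := by
      intro s hs t ht hst
      rw [h.intrinsic_eq hs.1 hst ht.2]
      constructor
      · rw [← edist_dist]
        exact eVariationOn.edist_le Γ (left_mem_Icc.2 hst) (right_mem_Icc.2 hst)
      · refine (h.variation_le hs.1 hst ht.2).trans ?_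
        apply ENNReal.ofReal_le_ofReal
        have h1 := h.lower s hs t ht
        rw [abs_sub_comm, abs_of_nonneg (by linarith)] at h1
        have h2 := h.one_le
        nlinarith
    rintro _ ⟨s, hs, rfl⟩ _ ⟨t, ht, rfl⟩ -
    rcases le_total s t with hst | hst
    · exact key s hs t ht hst
    · rw [intrinsicEDist_comm, dist_comm]
      exact key t ht s hs hst
  M3 := by
    obtain ⟨π, hπ1, hπ2⟩ := h.exists_retraction
    refine ⟨univ, π, univ_mem, π.continuous.continuousOn, hπ1, hπ2, ?_⟩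
    -- the modulus
    let M : Set (EuclideanSpace ℝ (Fin N)) := Γ '' Icc 0 1
    have hMc : IsCompact M := h.compact_image
    have hMne : M.Nonempty := ⟨Γ 0, 0, by simp, rfl⟩
    let K : ℝ → Set (EuclideanSpace ℝ (Fin N)) := fun r => {x | Metric.infDist x M ≤ r}
    have hKc : ∀ r, IsCompact (K r) := by
      intro r
      have : K r = Metric.cthickening r M ∨ r < 0 := by
        by_cases hr : r < 0
        · exact Or.inr hr
        · left
          ext x
          change Metric.infDist x M ≤ r ↔ x ∈ Metric.cthickening r M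
          rw [Metric.mem_cthickening_iff, Metric.infDist,
            ENNReal.le_ofReal_iff_toReal_le (Metric.infEDist_ne_top hMne) (not_lt.1 hr)]
      rcases this with h1 | h1
      · rw [h1]
        exact hMc.cthickening
      · have : K r = ∅ := by
          ext x
          constructor
          · intro hx
            have h2 : Metric.infDist x M ≤ r := hx
            exact absurd h1 (not_lt.2 (Metric.infDist_nonneg.trans h2))
          · intro hx
            exact absurd hx (notMem_empty x)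
        rw [this]
        exact isCompact_empty
    let φ : EuclideanSpace ℝ (Fin N) → ℝ := fun x => dist (π x) x
    have hφ : Continuous φ := by fun_prop
    refine ⟨fun r => sSup (φ '' K r) + r, ?_, ?_⟩
    · intro r hr _
      have hbdd : BddAbove (φ '' K r) := ((hKc r).image hφ).bddAbove
      have hle : ∀ x ∈ K r, φ x ≤ sSup (φ '' K r) := fun x hx => le_csSup hbdd ⟨x, hx, rfl⟩
      obtain ⟨x0, hx0⟩ := hMne
      have hx0' : x0 ∈ K r := by
        change Metric.infDist x0 M ≤ r
        rw [Metric.infDist_zero_of_mem hx0]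
        exact hr.le
      constructor
      · have := hle x0 hx0'
        have h2 : 0 ≤ φ x0 := dist_nonneg
        linarith
      · intro x hx
        have := hle x hx
        change φ x < _
        linarith
    · rw [Metric.tendsto_nhdsWithin_nhds]
      intro e he
      -- points close to `M` are moved by less than `e / 2`
      have hcl : ∃ δ > 0, ∀ x, Metric.infDist x M < δ → φ x < e / 2 := by
        have hopen : IsOpen {x | φ x < e / 2} := isOpen_lt hφ continuous_const
        have hsub : M ⊆ {x | φ x < e / 2} := by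
          intro x hx
          change dist (π x) x < e / 2
          rw [hπ2 x hx, dist_self]
          linarith
        obtain ⟨δ, hδ, hthick⟩ := hMc.exists_thickening_subset_open hopen hsub
        refine ⟨δ, hδ, fun x hx => hthick ?_⟩
        rwa [Metric.mem_thickening_iff_infDist_lt hMne]
      obtain ⟨δ, hδ, hclose⟩ := hcl
      refine ⟨min δ (e / 2), by positivity, ?_⟩
      intro r hr0 hr
      rw [Real.dist_eq, sub_zero, abs_of_pos hr0] at hr
      have hr1 : r < δ := lt_of_lt_of_le hr (min_le_left _ _)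
      have hr2 : r < e / 2 := lt_of_lt_of_le hr (min_le_right _ _)
      have hsup : sSup (φ '' K r) ≤ e / 2 := by
        refine csSup_le ?_ ?_
        · obtain ⟨x0, hx0⟩ := hMne
          refine ⟨φ x0, x0, ?_, rfl⟩
          change Metric.infDist x0 M ≤ r
          rw [Metric.infDist_zero_of_mem hx0]
          exact (mem_Ioi.1 hr0).le
        · rintro _ ⟨x, hx, rfl⟩
          exact (hclose x (lt_of_le_of_lt hx hr1)).le
      have hnn : 0 ≤ sSup (φ '' K r) := by
        refine Real.sSup_nonneg ?_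
        rintro _ ⟨x, hx, rfl⟩
        exact dist_nonneg
      rw [Real.dist_eq, sub_zero, abs_of_nonneg (add_nonneg hnn (mem_Ioi.1 hr0).le)]
      linarith

end BiLip

end Pool.Agent.Q135.Sh
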