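import Mathlib

/-!
# Continuous logarithms on contractible spaces
-/

namespace Pool.Agent.Q135.Sh

open Set Filter Topology

/-- A nowhere vanishing function on a contractible space has a continuous logarithm. -/
theorem exists_log {A : Type*} [TopologicalSpace A] [ContractibleSpace A] (u : A → ℂ)
    (hu : Continuous u) (h0 : ∀ a, u a ≠ 0) :
    ∃ v : A → ℂ, Continuous v ∧ ∀ a, Complex.exp (v a) = u a := by
  obtain ⟨a0, ⟨F⟩⟩ := id_nullhomotopic A
  -- `F` is a homotopy from the identity to the constant map
  let G := F.symm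
  let H : C(unitInterval × A, {z : ℂ // z ≠ 0}) :=
    ⟨fun p => ⟨u (G p), h0 _⟩, (hu.comp G.continuous).subtype_mk _⟩
  let f : C(A, ℂ) := ContinuousMap.const A (Complex.log (u a0))
  have hH : ∀ a, H (0, a) = (⟨_, (f a).exp_ne_zero⟩ : {z : ℂ // z ≠ 0}) := by
    intro a
    apply Subtype.ext
    change u (G (0, a)) = Complex.exp (Complex.log (u a0))
    rw [Complex.exp_log (h0 a0)]
    congr 1
    exact G.apply_zero a
  let L := Complex.isCoveringMap_exp.liftHomotopy H f hH
  refine ⟨fun a => L (1, a), by fun_prop, fun a => ?_⟩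
  have h1 := congrFun (Complex.isCoveringMap_exp.liftHomotopy_lifts H f hH) (1, a)
  have h2 := congrArg Subtype.val h1
  change Complex.exp (L (1, a)) = u (G (1, a)) at h2
  rw [h2]
  congr 1
  exact G.apply_one a

/-- Two continuous logarithms differ by a constant along a path. -/
theorem log_diff {A : Type*} [TopologicalSpace A] {v u : A → ℂ} (hv : Continuous v)
    (hu : Continuous u) (huv : ∀ a, Complex.exp (v a) = u a) (γ : unitInterval → A)
    (hγ : Continuous γ) (w : ℂ) (hw : w ≠ 0) (hs : ∀ t, u (γ t) / w ∈ Complex.slitPlane) :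
    v (γ 1) - v (γ 0) = Complex.log (u (γ 1) / w) - Complex.log (u (γ 0) / w) := by
  have hg : Continuous fun t => v (γ t) - Complex.log (u (γ t) / w) := by
    refine (hv.comp hγ).sub ?_
    exact Continuous.clog (by fun_prop) hs
  have hne : ∀ t, u (γ t) / w ≠ 0 := fun t => Complex.slitPlane_ne_zero (hs t)
  have he : ∀ t, Complex.exp (v (γ t) - Complex.log (u (γ t) / w)) = w := by
    intro t
    rw [Complex.exp_sub, huv, Complex.exp_log (hne t)]
    have : u (γ t) ≠ 0 := by
      intro h
      apply hne t
      simp [h]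
    field_simp
  have := Complex.isCoveringMap_exp.const_of_comp hg (fun a a' => by
    apply Subtype.ext
    change Complex.exp (v (γ a) - Complex.log (u (γ a) / w)) =
      Complex.exp (v (γ a') - Complex.log (u (γ a') / w))
    rw [he, he]) 1 0
  linear_combination this

lemma ball_slitPlane {z : ℂ} (h : ‖z - 1‖ < 1) : z ∈ Complex.slitPlane ∧
    |(Complex.log z).im| < Real.pi / 2 := by
  have h1 : 0 < z.re := by
    have h2 := (Complex.abs_re_le_norm (z - 1)).trans_lt h
    rw [Complex.sub_re, Complex.one_re] at h2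
    linarith [(abs_lt.1 h2).1]
  refine ⟨Or.inl h1, ?_⟩
  rw [Complex.log_im, Complex.abs_arg_lt_pi_div_two_iff]
  exact Or.inl h1

end Pool.Agent.Q135.Sh
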