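import Mathlib
import Pool.Agent.Q135.Sh.Arc2

/-!
# The planar arc which has a full turn at every dyadic scale
-/

namespace Pool.Agent.Q135.Sh

open Set Filter Topology

/-- One full turn on `[1, 17/16]`. -/
noncomputable def turn (s : ℝ) : ℂ :=
  Complex.exp (Complex.I * ((2 * Real.pi * min 1 ((s - 1) * 16) : ℝ) : ℂ))

lemma norm_turn (s : ℝ) : ‖turn s‖ = 1 := by
  unfold turn
  rw [mul_comm, Complex.norm_exp_ofReal_mul_I]

lemma turn_of_ge {s : ℝ} (hs : 17 / 16 ≤ s) : turn s = 1 := by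
  unfold turn
  rw [min_eq_left (by linarith)]
  rw [mul_one, mul_comm]
  push_cast
  exact Complex.exp_two_pi_mul_I

lemma turn_one : turn 1 = 1 := by
  unfold turn
  simp

lemma turn_lip (s t : ℝ) : ‖turn s - turn t‖ ≤ 32 * Real.pi * |s - t| := by
  unfold turn
  set a : ℝ := 2 * Real.pi * min 1 ((s - 1) * 16) with ha
  set b : ℝ := 2 * Real.pi * min 1 ((t - 1) * 16) with hb
  have h1 : Complex.exp (Complex.I * (a : ℂ)) - Complex.exp (Complex.I * (b : ℂ)) =
      Complex.exp (Complex.I * (b : ℂ)) * (Complex.exp (Complex.I * ((a - b : ℝ) : ℂ)) - 1) := by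
    rw [mul_sub, ← Complex.exp_add, mul_one]
    congr 2
    push_cast
    ring
  rw [h1, norm_mul, mul_comm Complex.I (b : ℂ), Complex.norm_exp_ofReal_mul_I, one_mul]
  refine (Real.norm_exp_I_mul_ofReal_sub_one_le).trans ?_
  rw [Real.norm_eq_abs, ha, hb, ← mul_sub, abs_mul, abs_of_pos (by positivity)]
  have h2 : |min 1 ((s - 1) * 16) - min 1 ((t - 1) * 16)| ≤ 16 * |s - t| := by
    refine (abs_min_sub_min_le_max _ _ _ _).trans ?_
    rw [sub_self, abs_zero, max_eq_right (abs_nonneg _)]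
    rw [show (s - 1) * 16 - (t - 1) * 16 = 16 * (s - t) by ring, abs_mul]
    norm_num
  have := Real.pi_pos
  nlinarith

/-- The arc. -/
noncomputable def spi (t : ℝ) : ℂ := t * turn (t / 2 ^ (Int.log 2 t))

lemma spi_zero : spi 0 = 0 := by simp [spi]

lemma norm_spi {t : ℝ} (ht : 0 ≤ t) : ‖spi t‖ = t := by
  unfold spi
  rw [norm_mul, norm_turn, mul_one, Complex.norm_real, Real.norm_of_nonneg ht]

lemma spi_eq {t : ℝ} {k : ℤ} (h1 : (2 : ℝ) ^ k ≤ t) (h2 : t ≤ 2 ^ (k + 1)) :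
    spi t = t * turn (t / 2 ^ k) := by
  have hk : (0 : ℝ) < 2 ^ k := by positivity
  have ht : 0 < t := lt_of_lt_of_le hk h1
  rcases h2.lt_or_eq with h3 | h3
  · have : Int.log 2 t = k := by
      apply le_antisymm
      · have := (Int.lt_zpow_iff_log_lt (b := 2) (by norm_num) (x := k + 1) ht).1 (by exact_mod_cast h3)
        omega
      · exact (Int.zpow_le_iff_le_log (b := 2) (by norm_num) ht).1 (by exact_mod_cast h1)
    unfold spi
    rw [this]
  · have : Int.log 2 t = k + 1 := by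
      rw [h3]
      exact_mod_cast Int.log_zpow (R := ℝ) (b := 2) (by norm_num) (k + 1)
    unfold spi
    rw [this, ← h3, div_self ht.ne', turn_one]
    have h4 : t / 2 ^ k = 2 := by
      rw [h3, zpow_add₀ (by norm_num), zpow_one]
      field_simp
    rw [h4, turn_of_ge (by norm_num)]

/-- Lipschitz constant -/
noncomputable def C0 : ℝ := 1 + 64 * Real.pi

lemma C0_ge : 3 ≤ C0 := by
  have := Real.pi_gt_three
  unfold C0
  linarith

lemma spi_lip_block {s t : ℝ} {k : ℤ} (hs1 : (2 : ℝ) ^ k ≤ s) (hs2 : s ≤ 2 ^ (k + 1))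
    (ht1 : (2 : ℝ) ^ k ≤ t) (ht2 : t ≤ 2 ^ (k + 1)) : ‖spi s - spi t‖ ≤ C0 * |s - t| := by
  rw [spi_eq hs1 hs2, spi_eq ht1 ht2]
  have hk : (0 : ℝ) < 2 ^ k := by positivity
  have h1 : (s : ℂ) * turn (s / 2 ^ k) - t * turn (t / 2 ^ k) =
      ((s - t : ℝ) : ℂ) * turn (s / 2 ^ k) + t * (turn (s / 2 ^ k) - turn (t / 2 ^ k)) := by
    push_cast
    ring
  rw [h1]
  refine (norm_add_le _ _).trans ?_
  rw [norm_mul, norm_mul, norm_turn, mul_one, Complex.norm_real, Complex.norm_real,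
    Real.norm_eq_abs, Real.norm_eq_abs, abs_of_pos (lt_of_lt_of_le hk ht1)]
  have h2 := turn_lip (s / 2 ^ k) (t / 2 ^ k)
  rw [← sub_div, abs_div, abs_of_pos hk] at h2
  have h3 : t ≤ 2 * 2 ^ k := by
    rw [zpow_add₀ (by norm_num), zpow_one] at ht2
    linarith
  have h4 : t * ‖turn (s / 2 ^ k) - turn (t / 2 ^ k)‖ ≤
      (2 * 2 ^ k) * (32 * Real.pi * (|s - t| / 2 ^ k)) := by
    apply mul_le_mul h3 h2 (norm_nonneg _) (by positivity)
  have h5 : (2 * 2 ^ k) * (32 * Real.pi * (|s - t| / 2 ^ k)) = 64 * Real.pi * |s - t| := by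
    field_simp
    ring
  unfold C0
  linarith

lemma spi_lip_aux {s t : ℝ} (hs : 0 ≤ s) (hst : s ≤ t) : ‖spi t - spi s‖ ≤ C0 * (t - s) := by
  rcases hst.lt_or_eq with hst | hst
  swap
  · subst hst
    simp
  have hC := C0_ge
  by_cases h2 : 2 * s ≤ t
  · calc ‖spi t - spi s‖ ≤ ‖spi t‖ + ‖spi s‖ := norm_sub_le _ _
      _ = t + s := by rw [norm_spi (by linarith), norm_spi hs]
      _ ≤ 3 * (t - s) := by linarith
      _ ≤ C0 * (t - s) := by nlinarith
  · push Not at h2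
    have hs0 : 0 < s := by linarith
    obtain ⟨k, hk1, hk2⟩ : ∃ k : ℤ, (2 : ℝ) ^ k ≤ s ∧ s < 2 ^ (k + 1) := by
      refine ⟨Int.log 2 s, ?_, ?_⟩
      · exact_mod_cast Int.zpow_log_le_self (b := 2) (by norm_num) hs0
      · exact_mod_cast Int.lt_zpow_succ_log_self (b := 2) (by norm_num) s
    have hk3 : (2 : ℝ) ^ (k + 1) = 2 * 2 ^ k := by
      rw [zpow_add₀ (by norm_num), zpow_one]
      ring
    have hk4 : (2 : ℝ) ^ (k + 1 + 1) = 2 * 2 ^ (k + 1) := by
      rw [zpow_add₀ (by norm_num) (k + 1), zpow_one]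
      ring
    have hk : (0 : ℝ) < 2 ^ k := by positivity
    by_cases h3 : t ≤ 2 ^ (k + 1)
    · have := spi_lip_block (hk1.trans hst.le) h3 hk1 hk2.le
      rwa [abs_of_pos (by linarith)] at this
    · push Not at h3
      have hb1 := spi_lip_block (k := k) (s := 2 ^ (k + 1)) (t := s) (by linarith) le_rfl hk1 hk2.le
      have hb2 := spi_lip_block (k := k + 1) (s := t) (t := 2 ^ (k + 1)) h3.le (by linarith)
        le_rfl (by linarith)
      rw [abs_of_pos (by linarith)] at hb1 hb2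
      have htri : ‖spi t - spi s‖ ≤ ‖spi t - spi (2 ^ (k + 1))‖ + ‖spi (2 ^ (k + 1)) - spi s‖ := by
        have := norm_add_le (spi t - spi (2 ^ (k + 1))) (spi (2 ^ (k + 1)) - spi s)
        simpa using this
      nlinarith

lemma spi_lip {s t : ℝ} (hs : 0 ≤ s) (ht : 0 ≤ t) : ‖spi s - spi t‖ ≤ C0 * |s - t| := by
  rcases le_total s t with h | h
  · have := spi_lip_aux hs h
    rwa [norm_sub_rev, abs_sub_comm, abs_of_nonneg (by linarith)]
  · have := spi_lip_aux ht h
    rwa [abs_of_nonneg (by linarith)]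

/-- The plane in `ℝ^(n+2)`. -/
noncomputable def inc (n : ℕ) (z : ℂ) : EuclideanSpace ℝ (Fin (n + 2)) :=
  WithLp.toLp 2 (Fin.cons z.re (Fin.cons z.im (fun _ => 0)))

lemma dist_inc (n : ℕ) (z w : ℂ) : dist (inc n z) (inc n w) = ‖z - w‖ := by
  rw [EuclideanSpace.dist_eq, Fin.sum_univ_succ, Fin.sum_univ_succ]
  simp only [inc, Fin.cons_zero, Fin.cons_succ, dist_self]
  simp only [Real.dist_eq, sq_abs, ne_eq, OfNat.ofNat_ne_zero, not_false_eq_true, zero_pow,
    Finset.sum_const_zero, add_zero]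
  rw [Complex.norm_def, Complex.normSq_apply]
  congr 1
  simp
  ring

/-- The projection to the plane. -/
noncomputable def pr (n : ℕ) (x : EuclideanSpace ℝ (Fin (n + 2))) : ℂ := ⟨x 0, x 1⟩

lemma pr_inc (n : ℕ) (z : ℂ) : pr n (inc n z) = z := by
  apply Complex.ext
  · simp [pr, inc]
  · change (inc n z) (Fin.succ 0) = z.im
    simp [inc]

lemma norm_pr_sub_le (n : ℕ) (x y : EuclideanSpace ℝ (Fin (n + 2))) :
    ‖pr n x - pr n y‖ ≤ dist x y := by
  rw [EuclideanSpace.dist_eq, Complex.norm_def, Complex.normSq_apply]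
  apply Real.sqrt_le_sqrt
  rw [Fin.sum_univ_succ, Fin.sum_univ_succ]
  have h0 : 0 ≤ ∑ i : Fin n, dist (x i.succ.succ) (y i.succ.succ) ^ 2 :=
    Finset.sum_nonneg fun i _ => sq_nonneg _
  have h1 : (1 : Fin (n + 2)) = Fin.succ 0 := rfl
  simp only [pr, Complex.sub_re, Complex.sub_im, Real.dist_eq, sq_abs, h1]
  simp only [Real.dist_eq, sq_abs] at h0
  nlinarith

lemma continuous_pr (n : ℕ) : Continuous (pr n) := by
  have : LipschitzWith 1 (pr n) := by
    refine LipschitzWith.of_dist_le_mul fun x y => ?_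
    rw [dist_eq_norm]
    simpa using norm_pr_sub_le n x y
  exact this.continuous

/-- The arc in `ℝ^(n+2)`. -/
noncomputable def arc (n : ℕ) (t : ℝ) : EuclideanSpace ℝ (Fin (n + 2)) := inc n (spi t)

lemma arc_biLip (n : ℕ) : BiLip (arc n) C0 where
  lower := by
    intro s hs t ht
    rw [arc, arc, dist_inc]
    have := abs_norm_sub_norm_le (spi s) (spi t)
    rwa [norm_spi hs.1, norm_spi ht.1] at this
  upper := by
    intro s hs t ht
    rw [arc, arc, dist_inc]
    exact spi_lip hs.1 ht.1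

end Pool.Agent.Q135.Sh
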