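import Mathlib
import Pool.Agent.Q135.Sh.Spiral
import Pool.Agent.Q135.Sh.Log

/-!
# The shadows of samples of the arc are not contractible
-/

namespace Pool.Agent.Q135.Sh

open Set Filter Topology

/-- the scales -/
noncomputable def lam (m : ℕ) : ℝ := 2 ^ (-(m : ℤ))

lemma lam_pos (m : ℕ) : 0 < lam m := by unfold lam; positivity

lemma lam_le {m : ℕ} (hm : 1 ≤ m) : lam m ≤ 1 / 2 := by
  unfold lam
  have : (2 : ℝ) ^ (-(m : ℤ)) ≤ 2 ^ (-(1 : ℤ)) := by
    apply zpow_le_zpow_right₀ (by norm_num)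
    omega
  simpa using this

/-- the centre of the hole -/
noncomputable def ctr (m : ℕ) : ℂ := ((-(3 / 4 * lam m) : ℝ) : ℂ)

lemma norm_ctr (m : ℕ) : ‖ctr m‖ = 3 / 4 * lam m := by
  have := lam_pos m
  rw [ctr, Complex.norm_real, Real.norm_eq_abs, abs_neg, abs_of_pos (by positivity)]

lemma spi_far {m : ℕ} {t : ℝ} (ht : 0 ≤ t) : 7 / 32 * lam m ≤ ‖spi t - ctr m‖ := by
  have hl := lam_pos m
  rcases le_or_gt t (17 / 32 * lam m) with h1 | h1
  · have := norm_sub_norm_le (ctr m) (spi t)
    rw [norm_ctr, norm_spi ht, norm_sub_rev] at this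
    linarith
  · rcases le_or_gt (lam m) t with h2 | h2
    · have := norm_sub_norm_le (spi t) (ctr m)
      rw [norm_ctr, norm_spi ht] at this
      linarith
    · have h3 : lam m = 2 * 2 ^ (-(m : ℤ) - 1) := by
        unfold lam
        rw [zpow_sub₀ (by norm_num), zpow_one]
        ring
      have h4 : (0 : ℝ) < 2 ^ (-(m : ℤ) - 1) := by positivity
      have h5 : spi t = t := by
        rw [spi_eq (k := -(m : ℤ) - 1) (by linarith) (by
          rw [sub_add_cancel]
          exact h2.le), turn_of_ge, mul_one]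
        rw [le_div_iff₀ h4]
        linarith
      rw [h5, ctr, ← Complex.ofReal_sub, Complex.norm_real, Real.norm_eq_abs]
      refine le_trans ?_ (le_abs_self _)
      linarith

/-- sample parameters -/
noncomputable def tau (m j : ℕ) : ℝ := lam m * (1 + j / 3200)

lemma tau_mem {m j : ℕ} (hm : 1 ≤ m) (hj : j ≤ 200) : tau m j ∈ Icc (0 : ℝ) 1 := by
  have h1 := lam_pos m
  have h2 := lam_le hm
  have h3 : (j : ℝ) ≤ 200 := by exact_mod_cast hj
  have h4 : (0 : ℝ) ≤ j := by positivity
  unfold tau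
  constructor
  · positivity
  · nlinarith

lemma lam_le_tau (m j : ℕ) : lam m ≤ tau m j := by
  have h1 := lam_pos m
  have h4 : (0 : ℝ) ≤ j := by positivity
  unfold tau
  nlinarith

lemma spi_tau {m j : ℕ} (hj : j ≤ 200) :
    spi (tau m j) = tau m j * Complex.exp (Complex.I * ((2 * Real.pi * (j / 200) : ℝ) : ℂ)) := by
  have h1 := lam_pos m
  have h3 : (j : ℝ) ≤ 200 := by exact_mod_cast hj
  have h4 : (0 : ℝ) ≤ j := by positivity
  rw [spi_eq (k := -(m : ℤ)) (lam_le_tau m j) ?_]
  · congr 1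
    unfold turn
    have h5 : tau m j / 2 ^ (-(m : ℤ)) = 1 + j / 3200 := by
      rw [tau, lam]
      field_simp
    rw [h5]
    have h6 : min 1 ((1 + (j : ℝ) / 3200 - 1) * 16) = j / 200 := by
      rw [min_eq_right (by linarith)]
      ring
    rw [h6]
  · rw [zpow_add₀ (by norm_num), zpow_one]
    change lam m * (1 + j / 3200) ≤ lam m * 2
    nlinarith

lemma norm_spi_tau {m j : ℕ} : ‖spi (tau m j)‖ = tau m j :=
  norm_spi ((lam_pos m).le.trans (lam_le_tau m j))

/-- the logarithm of the sample `z` seen from the centre, near the `j`-th sample parameter -/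
noncomputable def vv (m j : ℕ) (z : ℂ) : ℂ :=
  ((Real.log (tau m j) : ℝ) : ℂ) + Complex.I * ((2 * Real.pi * (j / 200) : ℝ) : ℂ) +
    Complex.log ((z - ctr m) / spi (tau m j))

lemma near_one {m j : ℕ} {z : ℂ} (hz : ‖z - spi (tau m j)‖ < lam m / 64) :
    ‖(z - ctr m) / spi (tau m j) - 1‖ < 1 := by
  have h1 := lam_pos m
  have h2 := lam_le_tau m j
  have h3 : spi (tau m j) ≠ 0 := by
    rw [← norm_pos_iff, norm_spi_tau]
    linarith
  have h4 : (z - ctr m) / spi (tau m j) - 1 =
      ((z - spi (tau m j)) - ctr m) / spi (tau m j) := by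
    field_simp
    ring
  rw [h4, norm_div, norm_spi_tau, div_lt_one (by linarith)]
  have h5 := norm_sub_le (z - spi (tau m j)) (ctr m)
  rw [norm_ctr] at h5
  linarith

lemma exp_vv {m j : ℕ} (hj : j ≤ 200) {z : ℂ} (hz : ‖z - spi (tau m j)‖ < lam m / 64) :
    Complex.exp (vv m j z) = z - ctr m := by
  have h1 := lam_pos m
  have h2 := lam_le_tau m j
  have h3 : spi (tau m j) ≠ 0 := by
    rw [← norm_pos_iff, norm_spi_tau]
    linarith
  have h4 : (z - ctr m) / spi (tau m j) ≠ 0 :=
    Complex.slitPlane_ne_zero (ball_slitPlane (near_one hz)).1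
  unfold vv
  rw [Complex.exp_add, Complex.exp_add, Complex.exp_log h4, ← Complex.ofReal_exp,
    Real.exp_log (by linarith), ← spi_tau hj]
  field_simp

lemma im_vv (m j : ℕ) (z : ℂ) : (vv m j z).im = 2 * Real.pi * (j / 200) +
    (Complex.log ((z - ctr m) / spi (tau m j))).im := by
  unfold vv
  simp only [Complex.add_im, Complex.ofReal_im, Complex.mul_im, Complex.I_re, Complex.I_im,
    Complex.ofReal_re]
  ring

lemma im_eq_of_exp_eq {a b : ℂ} (h : Complex.exp a = Complex.exp b)
    (hab : |a.im - b.im| < 2 * Real.pi) : a.im = b.im := by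
  obtain ⟨k, hk⟩ := Complex.exp_eq_exp_iff_exists_int.1 h
  have h1 : a.im - b.im = k * (2 * Real.pi) := by
    rw [hk]
    simp
  have h2 : k = 0 := by
    by_contra hne
    rw [h1, abs_mul, abs_of_pos (by positivity : (0 : ℝ) < 2 * Real.pi)] at hab
    have h3 : (1 : ℝ) ≤ |(k : ℝ)| := by
      have := Int.one_le_abs hne
      exact_mod_cast this
    have := Real.pi_pos
    nlinarith
  rw [h2] at h1
  simp at h1
  linarith

theorem not_contractible (n m : ℕ) (hm : 1 ≤ m) (S : Set (EuclideanSpace ℝ (Fin (n + 2))))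
    (hS : S.Finite) (hne : S.Nonempty)
    (hd : Metric.hausdorffDist S (arc n '' Icc 0 1) < lam m / 64) :
    ¬ ContractibleSpace (shadow (lam m / 8) S) := by
  intro hcontr
  have hl := lam_pos m
  have hpi := Real.pi_pos
  have hfin : Metric.hausdorffEDist S (arc n '' Icc 0 1) ≠ ⊤ :=
    Metric.hausdorffEDist_ne_top_of_nonempty_of_bounded hne ⟨_, 0, by simp, rfl⟩ hS.isBounded
      (arc_biLip n).compact_image.isBounded
  have hSM : ∀ s ∈ S, ∃ t ∈ Icc (0 : ℝ) 1, dist s (arc n t) < lam m / 64 := by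
    intro s hs
    obtain ⟨y, ⟨t, ht, rfl⟩, hy⟩ := Metric.exists_dist_lt_of_hausdorffDist_lt hs hd hfin
    exact ⟨t, ht, hy⟩
  have hMS : ∀ t : ℝ, ∃ s, t ∈ Icc (0 : ℝ) 1 → s ∈ S ∧ dist s (arc n t) < lam m / 64 := by
    intro t
    by_cases ht : t ∈ Icc (0 : ℝ) 1
    · obtain ⟨s, hs, hs2⟩ := Metric.exists_dist_lt_of_hausdorffDist_lt' (mem_image_of_mem _ ht)
        hd hfin
      exact ⟨s, fun _ => ⟨hs, hs2⟩⟩
    · exact ⟨0, fun h => absurd h ht⟩
  choose sm hsm using hMS
  -- the samples are far from the centre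
  have hfar : ∀ s ∈ S, lam m / 8 < ‖pr n s - ctr m‖ := by
    intro s hs
    obtain ⟨t, ht, hst⟩ := hSM s hs
    have h1 := norm_pr_sub_le n s (arc n t)
    rw [arc, pr_inc] at h1
    have h2 := spi_far (m := m) ht.1
    have h3 : ‖spi t - ctr m‖ ≤ ‖pr n s - ctr m‖ + ‖pr n s - spi t‖ := by
      have := norm_sub_le (pr n s - ctr m) (pr n s - spi t)
      rwa [show pr n s - ctr m - (pr n s - spi t) = spi t - ctr m by ring] at this
    rw [arc] at hst
    linarith
  -- the points of the shadow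
  have hsh : ∀ x ∈ shadow (lam m / 8) S, pr n x - ctr m ≠ 0 := by
    rintro x ⟨σ, ⟨s, hs⟩, hσf, hσS, hσd, hx⟩
    have h1 : dist x s < lam m / 8 := by
      refine lt_of_le_of_lt ?_ hσd
      rw [← convexHull_diam]
      exact Metric.dist_le_diam_of_mem (isBounded_convexHull.2 hσf.isBounded) hx
        (subset_convexHull ℝ _ hs)
    intro h0
    have h2 := hfar s (hσS hs)
    have h3 := norm_pr_sub_le n x s
    have h4 : pr n x = ctr m := by linear_combination h0
    rw [h4, norm_sub_rev] at h3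
    linarith
  have hmem : ∀ a ∈ S, ∀ b ∈ S, dist a b < lam m / 8 → ∀ x ∈ segment ℝ a b,
      x ∈ shadow (lam m / 8) S := by
    intro a ha b hb hab x hx
    refine ⟨{a, b}, ⟨a, by simp⟩, by simp, ?_, ?_, ?_⟩
    · rintro y (rfl | rfl)
      · exact ha
      · exact hb
    · rwa [Metric.diam_pair]
    · rwa [convexHull_pair]
  have hmem1 : ∀ a ∈ S, a ∈ shadow (lam m / 8) S := by
    intro a ha
    exact hmem a ha a ha (by rw [dist_self]; positivity) a (left_mem_segment ℝ a a)
  obtain ⟨v, hv, huv⟩ := exists_log (fun x : shadow (lam m / 8) S => pr n x.1 - ctr m)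
    (((continuous_pr n).comp continuous_subtype_val).sub continuous_const) (fun x => hsh x.1 x.2)
  -- variation along a short edge
  have hedge : ∀ a (ha : a ∈ S), ∀ b (hb : b ∈ S), dist a b < lam m / 8 →
      |(v ⟨b, hmem1 b hb⟩).im - (v ⟨a, hmem1 a ha⟩).im| < Real.pi / 2 := by
    intro a ha b hb hab
    have ha0 : pr n a - ctr m ≠ 0 := hsh a (hmem1 a ha)
    have hseg : ∀ t : unitInterval, AffineMap.lineMap a b (t : ℝ) ∈ segment ℝ a b := by
      intro t
      rw [segment_eq_image_lineMap]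
      exact ⟨t, t.2, rfl⟩
    have hball : ∀ x ∈ segment ℝ a b, ‖(pr n x - ctr m) / (pr n a - ctr m) - 1‖ < 1 := by
      intro x hx
      have h1 : (pr n x - ctr m) / (pr n a - ctr m) - 1 =
          (pr n x - pr n a) / (pr n a - ctr m) := by
        field_simp
        ring
      rw [h1, norm_div, div_lt_one (norm_pos_iff.2 ha0)]
      have h2 := norm_pr_sub_le n x a
      have h3 : dist x a ≤ dist a b := by
        have := dist_add_dist_of_mem_segment hx
        rw [dist_comm x a]
        linarith [dist_nonneg (x := x) (y := b)]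
      have h4 := hfar a ha
      linarith
    have h1 := log_diff hv (((continuous_pr n).comp continuous_subtype_val).sub continuous_const)
      huv (fun t => ⟨AffineMap.lineMap a b (t : ℝ), hmem a ha b hb hab _ (hseg t)⟩)
      (Continuous.subtype_mk (by
        have : Continuous fun t : ℝ => (AffineMap.lineMap a b t : EuclideanSpace ℝ (Fin (n + 2))) :=
          AffineMap.lineMap_continuous
        exact this.comp continuous_subtype_val) _)
      (pr n a - ctr m) ha0 (fun t => (ball_slitPlane (hball _ (hseg t))).1)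
    simp only [Function.comp, Pi.sub_apply, Icc.coe_one, Icc.coe_zero, AffineMap.lineMap_apply_one,
      AffineMap.lineMap_apply_zero, div_self ha0, Complex.log_one, sub_zero] at h1
    rw [← Complex.sub_im, h1]
    exact (ball_slitPlane (hball b (right_mem_segment ℝ a b))).2
  -- the samples
  have hs : ∀ j : ℕ, j ≤ 200 → sm (tau m j) ∈ S ∧ dist (sm (tau m j)) (arc n (tau m j)) < lam m / 64 :=
    fun j hj => hsm _ (tau_mem hm hj)
  have hpr : ∀ j : ℕ, j ≤ 200 → ‖pr n (sm (tau m j)) - spi (tau m j)‖ < lam m / 64 := by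
    intro j hj
    have h1 := norm_pr_sub_le n (sm (tau m j)) (arc n (tau m j))
    rw [arc, pr_inc] at h1
    have h2 := (hs j hj).2
    rw [arc] at h2
    linarith
  have hclose : ∀ i j : ℕ, i ≤ 200 → j ≤ 200 → ‖spi (tau m i) - spi (tau m j)‖ < 3 / 32 * lam m →
      dist (sm (tau m i)) (sm (tau m j)) < lam m / 8 := by
    intro i j hi hj hij
    have h1 := (hs i hi).2
    have h2 := (hs j hj).2
    have h3 : dist (arc n (tau m i)) (arc n (tau m j)) < 3 / 32 * lam m := by
      rw [arc, arc, dist_inc]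
      exact hij
    have h4 := dist_triangle4 (sm (tau m i)) (arc n (tau m i)) (arc n (tau m j)) (sm (tau m j))
    rw [dist_comm (arc n (tau m j)) (sm (tau m j))] at h4
    linarith
  let D : (j : ℕ) → j ≤ 200 → ℝ := fun j hj =>
    (v ⟨sm (tau m j), hmem1 _ (hs j hj).1⟩).im - (vv m j (pr n (sm (tau m j)))).im
  have hstep : ∀ j (hj : j + 1 ≤ 200), D (j + 1) hj = D j (by omega) := by
    intro j hj
    have hj' : j ≤ 200 := by omega
    have hpi4 := Real.pi_lt_d2
    have h1 : ‖spi (tau m (j + 1)) - spi (tau m j)‖ < 3 / 32 * lam m := by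
      refine (spi_lip (tau_mem hm hj).1 (tau_mem hm hj').1).trans_lt ?_
      have h2 : tau m (j + 1) - tau m j = lam m / 3200 := by
        unfold tau
        push_cast
        ring
      rw [h2, abs_of_pos (by positivity)]
      unfold C0
      nlinarith
    have h2 := hclose (j + 1) j hj hj' h1
    rw [dist_comm] at h2
    have h3 := hedge _ (hs j hj').1 _ (hs (j + 1) hj).1 h2
    have h4 := (ball_slitPlane (near_one (hpr j hj'))).2
    have h5 := (ball_slitPlane (near_one (hpr (j + 1) hj))).2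
    have h6 := im_vv m j (pr n (sm (tau m j)))
    have h7 := im_vv m (j + 1) (pr n (sm (tau m (j + 1))))
    have h8 : Complex.exp (v ⟨sm (tau m (j + 1)), hmem1 _ (hs (j + 1) hj).1⟩ -
        vv m (j + 1) (pr n (sm (tau m (j + 1))))) =
        Complex.exp (v ⟨sm (tau m j), hmem1 _ (hs j hj').1⟩ - vv m j (pr n (sm (tau m j)))) := by
      rw [Complex.exp_sub, Complex.exp_sub, exp_vv hj (hpr _ hj), exp_vv hj' (hpr _ hj'), huv, huv]
      simp only
      rw [div_self (hsh _ (hmem1 _ (hs (j + 1) hj).1)), div_self (hsh _ (hmem1 _ (hs j hj').1))]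
    have h9 := im_eq_of_exp_eq h8 (by
      rw [Complex.sub_im, Complex.sub_im, h6, h7]
      push_cast
      rw [abs_lt] at h3 h4 h5 ⊢
      constructor
      · linarith [h3.1, h3.2, h4.1, h4.2, h5.1, h5.2]
      · linarith [h3.1, h3.2, h4.1, h4.2, h5.1, h5.2])
    rw [Complex.sub_im, Complex.sub_im] at h9
    exact h9
  have hall : ∀ j (hj : j ≤ 200), D j hj = D 0 (by omega) := by
    intro j
    induction j with
    | zero => intro hj; rfl
    | succ j ih => intro hj; rw [hstep j hj, ih (by omega)]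
  have h200 := hall 200 le_rfl
  -- closing edge
  have hcl : ‖spi (tau m 200) - spi (tau m 0)‖ < 3 / 32 * lam m := by
    rw [spi_tau le_rfl, spi_tau (by norm_num)]
    have h1 : Complex.exp (Complex.I * ((2 * Real.pi * (((200 : ℕ) : ℝ) / 200) : ℝ) : ℂ)) = 1 := by
      rw [mul_comm]
      push_cast
      rw [show (200 : ℂ) / 200 = 1 by norm_num, mul_one]
      exact Complex.exp_two_pi_mul_I
    have h2 : Complex.exp (Complex.I * ((2 * Real.pi * (((0 : ℕ) : ℝ) / 200) : ℝ) : ℂ)) = 1 := by
      simp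
    rw [h1, h2, mul_one, mul_one, ← Complex.ofReal_sub, Complex.norm_real, Real.norm_eq_abs]
    have h3 : tau m 200 - tau m 0 = lam m / 16 := by
      unfold tau
      push_cast
      ring
    rw [h3, abs_of_pos (by positivity)]
    linarith
  have h1 := hedge _ (hs 0 (by norm_num)).1 _ (hs 200 le_rfl).1 (by
    rw [dist_comm]
    exact hclose 200 0 le_rfl (by norm_num) hcl)
  have h4 := (ball_slitPlane (near_one (hpr 0 (by norm_num)))).2
  have h5 := (ball_slitPlane (near_one (hpr 200 le_rfl))).2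
  have h6 := im_vv m 0 (pr n (sm (tau m 0)))
  have h7 := im_vv m 200 (pr n (sm (tau m 200)))
  have h8 : D 200 le_rfl = (v ⟨sm (tau m 200), hmem1 _ (hs 200 le_rfl).1⟩).im -
    (vv m 200 (pr n (sm (tau m 200)))).im := rfl
  have h9 : D 0 (by omega) = (v ⟨sm (tau m 0), hmem1 _ (hs 0 (by norm_num)).1⟩).im -
    (vv m 0 (pr n (sm (tau m 0)))).im := rfl
  rw [h8, h9, h6, h7] at h200
  push_cast at h200
  rw [abs_lt] at h1 h4 h5
  linarith [h1.1, h1.2, h4.1, h4.2, h5.1, h5.2]

end Pool.Agent.Q135.Sh
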