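import Mathlib
import Pool.Agent.Q135.Sh.Defs

/-!
# Subsets of the line
-/

namespace Pool.Agent.Q135.Sh

open Set Filter Topology ContinuousMap

/-- the coordinate -/
noncomputable def co : EuclideanSpace ℝ (Fin 1) →L[ℝ] ℝ := EuclideanSpace.proj 0

lemma dist_co (x y : EuclideanSpace ℝ (Fin 1)) : dist x y = |co x - co y| := by
  rw [EuclideanSpace.dist_eq, Fin.sum_univ_one]
  rw [Real.sqrt_sq dist_nonneg, Real.dist_eq]
  rfl

lemma co_inj {x y : EuclideanSpace ℝ (Fin 1)} (h : co x = co y) : x = y := by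
  rw [← dist_eq_zero, dist_co, h, sub_self, abs_zero]

lemma co_surj (t : ℝ) : ∃ x, co x = t := ⟨WithLp.toLp 2 (fun _ => t), rfl⟩

lemma mem_segment_co {s t z : EuclideanSpace ℝ (Fin 1)} (h1 : co s ≤ co z) (h2 : co z ≤ co t) :
    z ∈ segment ℝ s t := by
  have h3 : co z ∈ segment ℝ (co s) (co t) := by
    rw [segment_eq_Icc (h1.trans h2)]
    exact ⟨h1, h2⟩
  have h4 : co '' segment ℝ s t = segment ℝ (co s) (co t) :=
    image_segment ℝ (co : EuclideanSpace ℝ (Fin 1) →ₗ[ℝ] ℝ).toAffineMap s t
  rw [← h4] at h3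
  obtain ⟨w, hw, hwz⟩ := h3
  rwa [← co_inj hwz]

lemma convex_of_connected {M : Set (EuclideanSpace ℝ (Fin 1))} (h : IsPreconnected M) :
    Convex ℝ M := by
  have h1 : (co '' M).OrdConnected := (h.image _ co.continuous.continuousOn).ordConnected
  have h2 : Convex ℝ (co ⁻¹' (co '' M)) := h1.convex.linear_preimage co.toLinearMap
  rwa [preimage_image_eq _ (fun _ _ h => co_inj h)] at h2

theorem one_dim (M : Set (EuclideanSpace ℝ (Fin 1))) (hc : IsCompact M) (hconn : IsConnected M)
    (β : ℝ) (hβ : 0 < β) (S : Set (EuclideanSpace ℝ (Fin 1))) (hS : S.Finite) (hne : S.Nonempty)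
    (hd : Metric.hausdorffDist S M < β / 2) : Nonempty (shadow β S ≃ₕ M) := by
  have hMc := convex_of_connected hconn.isPreconnected
  have : ContractibleSpace M := hMc.contractibleSpace hconn.nonempty
  have hfin : Metric.hausdorffEDist S M ≠ ⊤ :=
    Metric.hausdorffEDist_ne_top_of_nonempty_of_bounded hne hconn.nonempty hS.isBounded
      hc.isBounded
  obtain ⟨a, haS, ha⟩ := Set.exists_min_image S co hS hne
  obtain ⟨b, hbS, hb⟩ := Set.exists_max_image S co hS hne
  have key : shadow β S = co ⁻¹' Icc (co a) (co b) := by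
    apply Subset.antisymm
    · rintro x ⟨σ, -, -, hσS, -, hx⟩
      have h1 : Convex ℝ (co ⁻¹' Icc (co a) (co b)) :=
        (convex_Icc _ _).linear_preimage co.toLinearMap
      have h2 : σ ⊆ co ⁻¹' Icc (co a) (co b) := fun s hs => ⟨ha s (hσS hs), hb s (hσS hs)⟩
      exact convexHull_min h2 h1 hx
    · rintro z ⟨hz1, hz2⟩
      obtain ⟨s, ⟨hsS, hsz⟩, hs⟩ := Set.exists_max_image {s ∈ S | co s ≤ co z} co
        (hS.subset (sep_subset _ _)) ⟨a, haS, hz1⟩
      obtain ⟨t, ⟨htS, htz⟩, ht⟩ := Set.exists_min_image {s ∈ S | co z ≤ co s} co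
        (hS.subset (sep_subset _ _)) ⟨b, hbS, hz2⟩
      have hst : dist s t < β := by
        by_contra hcon
        push Not at hcon
        rw [dist_co, abs_sub_comm, abs_of_nonneg (by linarith)] at hcon
        obtain ⟨q, hq⟩ := co_surj ((co s + co t) / 2)
        obtain ⟨p, hpM, hp⟩ := Metric.exists_dist_lt_of_hausdorffDist_lt hsS hd hfin
        obtain ⟨p', hpM', hp'⟩ := Metric.exists_dist_lt_of_hausdorffDist_lt htS hd hfin
        rw [dist_co, abs_lt] at hp hp'
        have hqM : q ∈ M := hMc.segment_subset hpM hpM' (mem_segment_co (by linarith [hp.1, hp.2])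
          (by linarith [hp'.1, hp'.2]))
        obtain ⟨r, hrS, hr⟩ := Metric.exists_dist_lt_of_hausdorffDist_lt' hqM hd hfin
        rw [dist_co, abs_lt] at hr
        rcases le_total (co r) (co z) with h1 | h1
        · have := hs r ⟨hrS, h1⟩
          linarith [hr.1, hr.2]
        · have := ht r ⟨hrS, h1⟩
          linarith [hr.1, hr.2]
      refine ⟨{s, t}, ⟨s, by simp⟩, by simp, ?_, ?_, ?_⟩
      · rintro y (rfl | rfl)
        · exact hsS
        · exact htS
      · rwa [Metric.diam_pair]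
      · rw [convexHull_pair]
        exact mem_segment_co hsz htz
  have hsc : Convex ℝ (shadow β S) := by
    rw [key]
    exact (convex_Icc _ _).linear_preimage co.toLinearMap
  have hsne : (shadow β S).Nonempty := by
    rw [key]
    exact ⟨a, le_rfl, ha b hbS⟩
  have : ContractibleSpace (shadow β S) := hsc.contractibleSpace hsne
  exact ContractibleSpace.hequiv _ _

end Pool.Agent.Q135.Sh
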